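import Pool.Agent.H12.UCR.Stmts

/-!
Row INV: invariance of the coefficients.
-/

set_option autoImplicit false

open MeasureTheory Filter Topology

namespace Pool.UCR

lemma inv_step (p : ℕ) (μ : PP p) (j : ℕ) : fc μ (j * p) = fc μ j := by
  have hc : Continuous fun x : UnitAddCircle => p • x := by fun_prop
  have e : ∀ x : UnitAddCircle, (fourier ((j * p : ℕ) : ℤ) x : ℂ) = fourier (j : ℤ) (p • x) := by
    intro x
    rw [fourier_apply, fourier_apply]
    congr 2
    push_cast
    rw [mul_smul, natCast_zsmul x p]
  have h : ∫ y, fourier (j : ℤ) y ∂(((μ.1 : ProbabilityMeasure UnitAddCircle) :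
      Measure UnitAddCircle).map (fun x : UnitAddCircle => p • x)) =
      ∫ x, fourier (j : ℤ) (p • x) ∂((μ.1 : ProbabilityMeasure UnitAddCircle) :
        Measure UnitAddCircle) :=
    integral_map hc.measurable.aemeasurable (map_continuous _).aestronglyMeasurable
  rw [μ.2] at h
  unfold fc
  rw [h]
  simp only [e]

theorem inv_thm : INVS := by
  intro p μ i
  induction i with
  | zero => intro j; rw [pow_zero, mul_one]
  | succ i ih =>
    intro j
    rw [pow_succ, ← mul_assoc, inv_step, ih]

end Pool.UCR
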